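import Pool.Agent.Lib52.NLSn.Defs
import Pool.Agent.NLSLib.Weak

/-!
# The Laplacian of (radial) times (solid harmonic)
-/

set_option autoImplicit false

namespace NLSn

open MeasureTheory Set Filter Topology Metric

noncomputable section

/-- partial derivatives -/
def pd {n : ℕ} (i : Fin n) (f : E n → ℝ) (x : E n) : ℝ :=
  fderiv ℝ f x (EuclideanSpace.single i (1 : ℝ))

lemma lap_eq_pd {n : ℕ} {f : E n → ℝ} (hf : ContDiff ℝ (⊤ : ℕ∞) f) (x : E n) :
    lap f x = ∑ i, pd i (pd i f) x := by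
  unfold lap
  refine Finset.sum_congr rfl fun i _ => ?_
  rw [iteratedFDeriv_two_apply]
  unfold pd
  have h1 : ContDiff ℝ (⊤ : ℕ∞) (fderiv ℝ f) := by
    have := (contDiff_infty_iff_fderiv.1 hf).2
    exact this
  have h2 : DifferentiableAt ℝ (fderiv ℝ f) x := (contDiff_infty_iff_fderiv.1 h1).1 x
  rw [fderiv_clm_apply h2 (differentiableAt_const _)]
  simp

lemma pd_contDiff {n : ℕ} {f : E n → ℝ} (hf : ContDiff ℝ (⊤ : ℕ∞) f) (i : Fin n) :
    ContDiff ℝ (⊤ : ℕ∞) (pd i f) := by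
  have h1 : ContDiff ℝ (⊤ : ℕ∞) (fderiv ℝ f) := (contDiff_infty_iff_fderiv.1 hf).2
  exact h1.clm_apply contDiff_const

lemma pd_mul {n : ℕ} {a b : E n → ℝ} {x : E n} (ha : DifferentiableAt ℝ a x)
    (hb : DifferentiableAt ℝ b x) (i : Fin n) :
    pd i (fun y => a y * b y) x = a x * pd i b x + b x * pd i a x := by
  unfold pd
  rw [fderiv_fun_mul ha hb]
  simp

lemma pd_add {n : ℕ} {a b : E n → ℝ} {x : E n} (ha : DifferentiableAt ℝ a x)
    (hb : DifferentiableAt ℝ b x) (i : Fin n) :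
    pd i (fun y => a y + b y) x = pd i a x + pd i b x := by
  unfold pd
  rw [fderiv_fun_add ha hb]
  simp

lemma pd_coord {n : ℕ} (i : Fin n) (x : E n) : pd i (fun y => y i) x = 1 := by
  unfold pd
  have : HasFDerivAt (fun y : E n => y i) (EuclideanSpace.proj i : E n →L[ℝ] ℝ) x :=
    (EuclideanSpace.proj i : E n →L[ℝ] ℝ).hasFDerivAt
  rw [this.fderiv]
  simp

lemma pd_normsq {n : ℕ} (i : Fin n) {g : ℝ → ℝ} (x : E n)
    (hg : DifferentiableAt ℝ g (‖x‖ ^ 2)) :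
    pd i (fun y : E n => g (‖y‖ ^ 2)) x = deriv g (‖x‖ ^ 2) * (2 * x i) := by
  unfold pd
  have h1 : HasFDerivAt (fun y : E n => ‖y‖ ^ 2) (2 • (innerSL ℝ x)) x :=
    (hasStrictFDerivAt_norm_sq x).hasFDerivAt
  have h2 := hg.hasDerivAt.comp_hasFDerivAt x h1
  have h3 : fderiv ℝ (fun y : E n => g (‖y‖ ^ 2)) x = deriv g (‖x‖ ^ 2) • (2 • (innerSL ℝ x)) :=
    h2.fderiv
  rw [h3]
  simp [EuclideanSpace.inner_single_right]

/-- Euler's identity -/
lemma IsHarm.euler {n l : ℕ} {Y : E n → ℝ} (h : IsHarm l Y) (x : E n) :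
    ∑ i, x i * pd i Y x = l * Y x := by
  have hY : Differentiable ℝ Y := (contDiff_infty_iff_fderiv.1 h.smooth).1
  have h1 : ∑ i, x i * pd i Y x = fderiv ℝ Y x x := by
    have h2 : x = ∑ i, x i • EuclideanSpace.single i (1 : ℝ) := by
      ext j
      simp [Finset.sum_apply, Pi.single_apply]
    have h2' : fderiv ℝ Y x x = fderiv ℝ Y x (∑ i, x i • EuclideanSpace.single i (1 : ℝ)) :=
      congrArg (fderiv ℝ Y x) h2
    rw [h2', map_sum]
    refine Finset.sum_congr rfl fun i _ => ?_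
    rw [map_smul, smul_eq_mul]
    rfl
  have h3 : HasDerivAt (fun t : ℝ => Y (t • x)) (fderiv ℝ Y x x) 1 := by
    have h4 : HasDerivAt (fun t : ℝ => t • x) x 1 := by
      simpa using (hasDerivAt_id (1 : ℝ)).smul_const x
    have h5 : HasFDerivAt Y (fderiv ℝ Y x) ((1 : ℝ) • x) := by
      rw [one_smul]
      exact (hY x).hasFDerivAt
    exact h5.comp_hasDerivAt 1 h4
  have h6 : HasDerivAt (fun t : ℝ => Y (t • x)) (l * Y x) 1 := by
    have h7 : HasDerivAt (fun t : ℝ => t ^ l * Y x) ((l : ℝ) * 1 ^ (l - 1) * Y x) 1 :=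
      (hasDerivAt_pow l (1 : ℝ)).mul_const _
    rw [one_pow, mul_one] at h7
    refine h7.congr_of_eventuallyEq ?_
    filter_upwards [lt_mem_nhds (zero_lt_one (α := ℝ))] with t ht
    exact h.homog t ht x
  rw [h1]
  exact h3.unique h6

lemma lap_radial_mul {n l : ℕ} {Y : E n → ℝ} (hY : IsHarm l Y) {h : ℝ → ℝ}
    (hh : ContDiff ℝ (⊤ : ℕ∞) h) (x : E n) :
    lap (fun y : E n => h (‖y‖ ^ 2) * Y y) x =
      (4 * ‖x‖ ^ 2 * deriv (deriv h) (‖x‖ ^ 2) + (2 * n + 4 * l) * deriv h (‖x‖ ^ 2)) * Y x := by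
  have hsq : ContDiff ℝ (⊤ : ℕ∞) (fun y : E n => ‖y‖ ^ 2) := contDiff_norm_sq ℝ
  have hd1 : ContDiff ℝ (⊤ : ℕ∞) (deriv h) := (contDiff_infty_iff_deriv.1 hh).2
  have hdh : Differentiable ℝ h := (contDiff_infty_iff_deriv.1 hh).1
  have hdd : Differentiable ℝ (deriv h) := (contDiff_infty_iff_deriv.1 hd1).1
  have hYd : Differentiable ℝ Y := (contDiff_infty_iff_fderiv.1 hY.smooth).1
  have hφ : ContDiff ℝ (⊤ : ℕ∞) (fun y : E n => h (‖y‖ ^ 2) * Y y) :=
    (hh.comp hsq).mul hY.smooth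
  have hhs : Differentiable ℝ (fun y : E n => h (‖y‖ ^ 2)) :=
    (contDiff_infty_iff_fderiv.1 (hh.comp hsq)).1
  have hhs' : Differentiable ℝ (fun y : E n => deriv h (‖y‖ ^ 2)) :=
    (contDiff_infty_iff_fderiv.1 (hd1.comp hsq)).1
  rw [lap_eq_pd hφ]
  have hcoord : ∀ i : Fin n, Differentiable ℝ (fun y : E n => y i) := fun i =>
    (EuclideanSpace.proj i : E n →L[ℝ] ℝ).differentiable
  have hpY : ∀ i : Fin n, Differentiable ℝ (pd i Y) := fun i =>
    (contDiff_infty_iff_fderiv.1 (pd_contDiff hY.smooth i)).1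
  have key : ∀ i : Fin n, pd i (pd i (fun y : E n => h (‖y‖ ^ 2) * Y y)) x =
      2 * deriv h (‖x‖ ^ 2) * Y x + 4 * (x i) ^ 2 * deriv (deriv h) (‖x‖ ^ 2) * Y x +
      4 * deriv h (‖x‖ ^ 2) * (x i * pd i Y x) + h (‖x‖ ^ 2) * pd i (pd i Y) x := by
    intro i
    have e1 : pd i (fun y : E n => h (‖y‖ ^ 2) * Y y) = fun y =>
        h (‖y‖ ^ 2) * pd i Y y + (2 * (Y y * y i)) * deriv h (‖y‖ ^ 2) := by
      funext y
      rw [pd_mul (hhs y) (hYd y), pd_normsq i y (hdh _)]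
      ring
    rw [e1, pd_add (a := fun y : E n => h (‖y‖ ^ 2) * pd i Y y)
      (b := fun y : E n => 2 * (Y y * y i) * deriv h (‖y‖ ^ 2)) ((hhs x).mul (hpY i x))
      ((((hYd x).mul (hcoord i x)).const_mul 2).mul (hhs' x)),
      pd_mul (hhs x) (hpY i x), pd_normsq i x (hdh _)]
    have e2 : pd i (fun y : E n => (2 * (Y y * y i)) * deriv h (‖y‖ ^ 2)) x =
        (2 * (Y x * x i)) * (deriv (deriv h) (‖x‖ ^ 2) * (2 * x i)) +
        deriv h (‖x‖ ^ 2) * (2 * (Y x * 1 + x i * pd i Y x)) := by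
      rw [pd_mul (a := fun y : E n => 2 * (Y y * y i)) (b := fun y : E n => deriv h (‖y‖ ^ 2))
        (((hYd x).mul (hcoord i x)).const_mul 2) (hhs' x),
        pd_normsq i x (hdd _)]
      congr 2
      have e3 : pd i (fun y : E n => 2 * (Y y * y i)) x =
          2 * pd i (fun y : E n => Y y * y i) x + (Y x * x i) * pd i (fun _ => (2 : ℝ)) x := by
        exact pd_mul (differentiableAt_const _) ((hYd x).mul (hcoord i x)) i
      rw [e3, pd_mul (hYd x) (hcoord i x), pd_coord]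
      have e4 : pd i (fun _ : E n => (2 : ℝ)) x = 0 := by
        unfold pd
        simp
      rw [e4]
      ring
    rw [e2]
    ring
  simp only [key]
  rw [Finset.sum_add_distrib, Finset.sum_add_distrib, Finset.sum_add_distrib]
  have s1 : ∑ i : Fin n, 2 * deriv h (‖x‖ ^ 2) * Y x = n * (2 * deriv h (‖x‖ ^ 2) * Y x) := by
    simp
  have s2 : ∑ i : Fin n, 4 * (x i) ^ 2 * deriv (deriv h) (‖x‖ ^ 2) * Y x =
      4 * ‖x‖ ^ 2 * deriv (deriv h) (‖x‖ ^ 2) * Y x := by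
    rw [EuclideanSpace.real_norm_sq_eq, Finset.mul_sum, Finset.sum_mul, Finset.sum_mul]
  have s3 : ∑ i : Fin n, 4 * deriv h (‖x‖ ^ 2) * (x i * pd i Y x) =
      4 * deriv h (‖x‖ ^ 2) * (l * Y x) := by
    rw [← Finset.mul_sum, hY.euler x]
  have s4 : ∑ i : Fin n, h (‖x‖ ^ 2) * pd i (pd i Y) x = 0 := by
    rw [← Finset.mul_sum, ← lap_eq_pd hY.smooth, hY.harm, mul_zero]
  rw [s1, s2, s3, s4]
  ring

/-! ### the radial profiles -/

/-- `s^a κ(½ log s)` for `s > 0` and `0` for `s ≤ 0` -/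
def prof (a : ℝ) (κ : ℝ → ℝ) (s : ℝ) : ℝ :=
  if s ≤ 0 then 0 else Real.exp (a * Real.log s) * κ (Real.log s / 2)

lemma prof_pos {a : ℝ} {κ : ℝ → ℝ} {s : ℝ} (hs : 0 < s) :
    prof a κ s = Real.exp (a * Real.log s) * κ (Real.log s / 2) := if_neg (not_le.2 hs)

lemma prof_eventually_zero {a : ℝ} {κ : ℝ → ℝ} (hκ : NLSLib.Test κ) {s : ℝ} (hs : s ≤ 0) :
    prof a κ =ᶠ[𝓝 s] fun _ => 0 := by
  obtain ⟨R, hR, hz⟩ := hκ.bound
  have h1 : s < Real.exp (-(2 * R)) := hs.trans_lt (Real.exp_pos _)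
  filter_upwards [gt_mem_nhds h1] with t ht
  unfold prof
  split_ifs with h0
  · rfl
  · rw [not_le] at h0
    have h2 : Real.log t < -(2 * R) := by
      rw [← Real.log_exp (-(2 * R))]
      exact Real.log_lt_log h0 ht
    rw [hz, mul_zero]
    rw [abs_of_nonpos (by linarith)]
    linarith

lemma prof_eventually_pos {a : ℝ} {κ : ℝ → ℝ} {s : ℝ} (hs : 0 < s) :
    prof a κ =ᶠ[𝓝 s] fun t => Real.exp (a * Real.log t) * κ (Real.log t / 2) := by
  filter_upwards [lt_mem_nhds hs] with t ht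
  exact prof_pos ht

lemma prof_contDiff {a : ℝ} {κ : ℝ → ℝ} (hκ : NLSLib.Test κ) :
    ContDiff ℝ (⊤ : ℕ∞) (prof a κ) := by
  rw [contDiff_iff_contDiffAt]
  intro s
  rcases le_or_gt s 0 with hs | hs
  · exact contDiffAt_const.congr_of_eventuallyEq (prof_eventually_zero hκ hs)
  · refine ContDiffAt.congr_of_eventuallyEq ?_ (prof_eventually_pos hs)
    have hlog : ContDiffAt ℝ (⊤ : ℕ∞) Real.log s := Real.contDiffAt_log.2 hs.ne'
    exact (Real.contDiff_exp.contDiffAt.comp s (contDiffAt_const.mul hlog)).mul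
      (hκ.1.contDiffAt.comp s (hlog.div_const 2))

/-- the derivative of a profile -/
def dk (a : ℝ) (κ : ℝ → ℝ) (τ : ℝ) : ℝ := a * κ τ + deriv κ τ / 2

lemma dk_test {a : ℝ} {κ : ℝ → ℝ} (hκ : NLSLib.Test κ) : NLSLib.Test (dk a κ) := by
  refine ⟨(contDiff_const.mul hκ.1).add (hκ.deriv.1.div_const 2), ?_⟩
  exact (hκ.2.comp_left (g := fun z => a * z) (mul_zero a)).add
    (hκ.deriv.2.comp_left (g := fun z => z / 2) (zero_div 2))

lemma deriv_prof {a : ℝ} {κ : ℝ → ℝ} (hκ : NLSLib.Test κ) :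
    deriv (prof a κ) = prof (a - 1) (dk a κ) := by
  funext s
  rcases le_or_gt s 0 with hs | hs
  · rw [(prof_eventually_zero hκ hs).deriv_eq]
    simp [prof, hs]
  · rw [(prof_eventually_pos hs).deriv_eq, prof_pos hs]
    have hl : HasDerivAt Real.log s⁻¹ s := Real.hasDerivAt_log hs.ne'
    have h1 : HasDerivAt (fun t => Real.exp (a * Real.log t))
        (Real.exp (a * Real.log s) * (a * s⁻¹)) s := (hl.const_mul a).exp
    have h2 : HasDerivAt (fun t => κ (Real.log t / 2))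
        (deriv κ (Real.log s / 2) * (s⁻¹ / 2)) s :=
      (hκ.differentiable _).hasDerivAt.comp s (hl.div_const 2)
    rw [(h1.fun_mul h2).deriv]
    have h3 : Real.exp ((a - 1) * Real.log s) = Real.exp (a * Real.log s) * s⁻¹ := by
      rw [sub_mul, one_mul, Real.exp_sub, Real.exp_log hs]
      rfl
    rw [h3]
    unfold dk
    ring

lemma exists_test {n l : ℕ} {Y : E n → ℝ} (hY : IsHarm l Y) {κ : ℝ → ℝ}
    (hκ : NLSLib.Test κ) {μ : ℝ} (hμ : μ = (l : ℝ) + ((n : ℝ) - 2) / 2) :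
    ∃ φ : E n → ℝ, Test φ ∧
      (∀ x ≠ 0, φ x = Real.exp (-μ * Real.log ‖x‖) * κ (Real.log ‖x‖) * Y x) ∧
      (∀ x ≠ 0, lap φ x = Real.exp (-(μ + 2) * Real.log ‖x‖) *
        (deriv (deriv κ) (Real.log ‖x‖) - μ ^ 2 * κ (Real.log ‖x‖)) * Y x) := by
  have hlog : ∀ x : E n, Real.log (‖x‖ ^ 2) = 2 * Real.log ‖x‖ := fun x => by
    rw [Real.log_pow]; push_cast; ring
  refine ⟨fun x => prof (-μ / 2) κ (‖x‖ ^ 2) * Y x, ⟨?_, ?_⟩, ?_, ?_⟩
  · exact ((prof_contDiff hκ).comp (contDiff_norm_sq ℝ)).mul hY.smooth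
  · obtain ⟨R, hR, hz⟩ := hκ.bound
    apply HasCompactSupport.intro (isCompact_closedBall (0 : E n) (Real.exp R))
    intro x hx
    rw [mem_closedBall, dist_zero_right, not_le] at hx
    have hx0 : 0 < ‖x‖ := (Real.exp_pos _).trans hx
    have h1 : R < Real.log ‖x‖ := by
      rw [← Real.log_exp R]
      exact Real.log_lt_log (Real.exp_pos _) hx
    rw [prof_pos (by positivity), hlog, mul_div_cancel_left₀ _ two_ne_zero, hz, mul_zero, zero_mul]
    exact h1.le.trans (le_abs_self _)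
  · intro x hx
    have hx0 : 0 < ‖x‖ := norm_pos_iff.2 hx
    simp only
    rw [prof_pos (by positivity), hlog, mul_div_cancel_left₀ _ two_ne_zero]
    congr 3
    ring
  · intro x hx
    have hx0 : 0 < ‖x‖ := norm_pos_iff.2 hx
    rw [lap_radial_mul hY (prof_contDiff hκ), deriv_prof hκ, deriv_prof (dk_test hκ),
      prof_pos (by positivity), prof_pos (by positivity), hlog,
      mul_div_cancel_left₀ _ two_ne_zero]
    set L := Real.log ‖x‖ with hL
    have e1 : ‖x‖ ^ 2 = Real.exp (2 * L) := by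
      rw [hL, mul_comm, Real.exp_mul, Real.exp_log hx0]
      exact (Real.rpow_two _).symm
    have e2 : Real.exp ((-μ / 2 - 1 - 1) * (2 * L)) * Real.exp (2 * L) =
        Real.exp (-(μ + 2) * L) := by
      rw [← Real.exp_add]
      congr 1
      ring
    have e3 : Real.exp ((-μ / 2 - 1) * (2 * L)) = Real.exp (-(μ + 2) * L) := by
      congr 1
      ring
    have e4 : deriv (dk (-μ / 2) κ) L = -μ / 2 * deriv κ L + deriv (deriv κ) L / 2 := by
      unfold dk
      have k1 : HasDerivAt (fun τ => -μ / 2 * κ τ) (-μ / 2 * deriv κ L) L :=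
        (hκ.differentiable L).hasDerivAt.const_mul _
      have k2 : HasDerivAt (fun τ => deriv κ τ / 2) (deriv (deriv κ) L / 2) L :=
        (hκ.deriv.differentiable L).hasDerivAt.div_const _
      exact (k1.fun_add k2).deriv
    rw [e1, e3]
    have e5 : dk (-μ / 2 - 1) (dk (-μ / 2) κ) L = (-μ / 2 - 1) * (-μ / 2 * κ L + deriv κ L / 2) +
        (-μ / 2 * deriv κ L + deriv (deriv κ) L / 2) / 2 := by
      rw [← e4]
      rfl
    have e6 : dk (-μ / 2) κ L = -μ / 2 * κ L + deriv κ L / 2 := rfl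
    rw [e5, e6]
    have e7 : 4 * Real.exp (2 * L) * (Real.exp ((-μ / 2 - 1 - 1) * (2 * L)) *
        ((-μ / 2 - 1) * (-μ / 2 * κ L + deriv κ L / 2) +
        (-μ / 2 * deriv κ L + deriv (deriv κ) L / 2) / 2)) =
        Real.exp (-(μ + 2) * L) * (4 * ((-μ / 2 - 1) * (-μ / 2 * κ L + deriv κ L / 2) +
        (-μ / 2 * deriv κ L + deriv (deriv κ) L / 2) / 2)) := by
      rw [← e2]
      ring
    rw [e7]
    have e8 : (2 * (n : ℝ) + 4 * l) = 4 * μ + 4 := by rw [hμ]; ring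
    rw [e8]
    ring

end

end NLSn
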