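import Pool.Agent.Lib_helper34.NLSn.Polar
import Pool.Agent.Lib_helper34.NLSn.RadialLap

/-!
# Module B: reduction of a weak eigenfunction to an ordinary differential equation
-/

set_option autoImplicit false

namespace NLSn

open MeasureTheory Set Filter Topology Metric

noncomputable section

/-- Real weak locally integrable solutions of `g'' = w g` (with `w` continuous) are classical. -/
lemma weak_classical' {g w : ℝ → ℝ} (hw : Continuous w) (hgl : LocallyIntegrable g)
    (hweak : ∀ φ, NLSLib.Test φ → ∫ x, g x * deriv (deriv φ) x = ∫ x, (w x * g x) * φ x) :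
    ∃ y y' : ℝ → ℝ, (∀ x, HasDerivAt y (y' x) x) ∧ (∀ x, HasDerivAt y' (w x * y x) x) ∧
      g =ᵐ[volume] y := by
  have hwl : LocallyIntegrable (fun x => w x * g x) := hgl.continuous_mul hw
  obtain ⟨a, b, hab⟩ := NLSLib.weak_regular hgl hwl hweak
  set H : ℝ → ℝ := fun s => ∫ z in (0 : ℝ)..s, w z * g z with hH
  have hHc : Continuous H :=
    intervalIntegral.continuous_primitive (fun a b =>
      (hwl.integrableOn_isCompact isCompact_uIcc).intervalIntegrable) 0
  set y : ℝ → ℝ := fun x => a + b * x + ∫ s in (0 : ℝ)..x, H s with hy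
  have hyd : ∀ x, HasDerivAt y (b + H x) x := by
    intro x
    have h1 : HasDerivAt (fun x => ∫ s in (0 : ℝ)..x, H s) (H x) x :=
      intervalIntegral.integral_hasDerivAt_right (hHc.intervalIntegrable _ _)
        (hHc.stronglyMeasurableAtFilter _ _) hHc.continuousAt
    have h2 := (((hasDerivAt_id' x).const_mul b).const_add a).add h1
    refine HasDerivAt.congr_deriv h2 ?_
    ring
  have hyc : Continuous y := continuous_iff_continuousAt.2 fun x => (hyd x).continuousAt
  have hgy : g =ᵐ[volume] y := hab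
  have hHeq : H = fun s => ∫ z in (0 : ℝ)..s, w z * y z := by
    funext s
    apply intervalIntegral.integral_congr_ae
    filter_upwards [hgy] with x hx _
    rw [hx]
  refine ⟨y, fun x => b + H x, hyd, fun x => ?_, hgy⟩
  have hcw : Continuous fun z => w z * y z := hw.mul hyc
  rw [hHeq]
  exact (intervalIntegral.integral_hasDerivAt_right (hcw.intervalIntegrable _ _)
    (hcw.stronglyMeasurableAtFilter _ _) hcw.continuousAt).const_add b

/-- Cauchy-Schwarz -/
lemma cauchy_schwarz {α : Type*} [MeasurableSpace α] {σ : Measure α} {a b : α → ℝ}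
    (ha : MemLp a 2 σ) (hb : MemLp b 2 σ) :
    (∫ x, a x * b x ∂σ) ^ 2 ≤ (∫ x, b x ^ 2 ∂σ) * ∫ x, a x ^ 2 ∂σ := by
  have ia : Integrable (fun x => a x ^ 2) σ := ha.integrable_sq
  have ib : Integrable (fun x => b x ^ 2) σ := hb.integrable_sq
  have iab : Integrable (fun x => a x * b x) σ := ha.integrable_mul hb
  have h1 : ∀ t : ℝ, 0 ≤ (∫ x, a x ^ 2 ∂σ) * (t * t) + (2 * ∫ x, a x * b x ∂σ) * t +
      ∫ x, b x ^ 2 ∂σ := by
    intro t
    have h2 : 0 ≤ ∫ x, (a x * t + b x) ^ 2 ∂σ := integral_nonneg fun x => sq_nonneg _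
    have h3 : ∫ x, (a x * t + b x) ^ 2 ∂σ = (∫ x, a x ^ 2 ∂σ) * (t * t) +
        (2 * ∫ x, a x * b x ∂σ) * t + ∫ x, b x ^ 2 ∂σ := by
      have h4 : ∀ x, (a x * t + b x) ^ 2 = (a x ^ 2 * (t * t) + a x * b x * (2 * t)) + b x ^ 2 :=
        fun x => by ring
      simp only [h4]
      have ia' : Integrable (fun x => a x ^ 2 * (t * t)) σ := ia.mul_const _
      have iab' : Integrable (fun x => a x * b x * (2 * t)) σ := iab.mul_const _
      have iadd : Integrable (fun x => a x ^ 2 * (t * t) + a x * b x * (2 * t)) σ := ia'.add iab'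
      rw [integral_add iadd ib, integral_add ia' iab', integral_mul_const, integral_mul_const]
      ring
    rw [← h3]
    exact h2
  have h5 := discrim_le_zero h1
  unfold discrim at h5
  nlinarith [h5]

section reduction

variable {n l : ℕ} (hn : 1 ≤ n) {f Y : E n → ℝ}

/-- the spherical mean -/
def wf (n : ℕ) (f Y : E n → ℝ) (τ : ℝ) : ℝ :=
  ∫ ω, f (pol n (ω, τ)) * Y (ω : E n) ∂(sig n)

/-- the reduced function -/
def G0 (n : ℕ) (f Y : E n → ℝ) (τ : ℝ) : ℝ := Real.exp (((n : ℝ) - 2) / 2 * τ) * wf n f Y τ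

lemma vol_ac_mu1 (n : ℕ) : (volume : Measure ℝ) ≪ mu1 n := by
  unfold mu1
  refine withDensity_absolutelyContinuous' (by fun_prop) (Eventually.of_forall fun τ => ?_)
  rw [Ne, ENNReal.ofReal_eq_zero, not_le]
  exact Real.exp_pos _

include hn in
lemma fpol_aesm (hf : AEStronglyMeasurable f volume) :
    AEStronglyMeasurable (f ∘ pol n) ((sig n).prod (mu1 n)) :=
  hf.comp_measurePreserving (mp_pol hn)

lemma Y_bound (hY : Continuous Y) : ∃ C, ∀ ω : sphere (0 : E n) 1, |Y (ω : E n)| ≤ C := by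
  obtain ⟨C, hC⟩ := (isCompact_sphere (0 : E n) 1).exists_bound_of_continuousOn hY.continuousOn
  exact ⟨C, fun ω => hC ω ω.2⟩

lemma Y_memLp (hY : Continuous Y) : MemLp (fun ω : sphere (0 : E n) 1 => Y (ω : E n)) 2 (sig n) := by
  obtain ⟨C, hC⟩ := Y_bound hY
  exact MemLp.of_bound (hY.comp continuous_subtype_val).aestronglyMeasurable C
    (Eventually.of_forall hC)

include hn in
lemma wf_aesm (hf : AEStronglyMeasurable f volume) (hY : Continuous Y) :
    AEStronglyMeasurable (wf n f Y) volume := by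
  have h1 : AEStronglyMeasurable (fun p : sphere (0 : E n) 1 × ℝ => f (pol n p) * Y (p.1 : E n))
      ((sig n).prod (mu1 n)) :=
    (fpol_aesm hn hf).mul
      (hY.comp (continuous_subtype_val.comp continuous_fst)).aestronglyMeasurable
  have h2 := h1.prod_swap.integral_prod_right'
  exact h2.mono_ac (vol_ac_mu1 n)

include hn in
lemma wf_sq (hf : MemLp f 2 volume) (hY : Continuous Y) :
    Integrable (fun τ => Real.exp (n * τ) * wf n f Y τ ^ 2) volume := by
  have hsq : Integrable (fun x => f x ^ 2) volume := hf.integrable_sq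
  obtain ⟨h1, h2⟩ := integrable_pol hn hsq
  have h3 : ∀ᵐ τ, AEStronglyMeasurable (fun ω => f (pol n (ω, τ))) (sig n) := by
    have h4 := (fpol_aesm hn hf.1).prod_swap.prodMk_left
    exact mu1_ae h4
  have hle : ∀ᵐ τ, ‖Real.exp (n * τ) * wf n f Y τ ^ 2‖ ≤
      (∫ ω, Y ((ω : sphere (0 : E n) 1) : E n) ^ 2 ∂(sig n)) *
        (Real.exp (n * τ) * ∫ ω, f (pol n (ω, τ)) ^ 2 ∂(sig n)) := by
    filter_upwards [h1, h3] with τ k1 k3
    have k4 : MemLp (fun ω => f (pol n (ω, τ))) 2 (sig n) :=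
      (memLp_two_iff_integrable_sq k3).2 k1
    have k5 := cauchy_schwarz k4 (Y_memLp hY)
    rw [Real.norm_of_nonneg (by positivity)]
    have k6 : wf n f Y τ ^ 2 ≤ (∫ ω, Y ((ω : sphere (0 : E n) 1) : E n) ^ 2 ∂(sig n)) *
        ∫ ω, f (pol n (ω, τ)) ^ 2 ∂(sig n) := k5
    nlinarith [Real.exp_pos (n * τ), mul_le_mul_of_nonneg_left k6 (Real.exp_pos (n * τ)).le]
  refine (h2.const_mul _).mono' ?_ hle
  have h5 : AEStronglyMeasurable (fun τ : ℝ => Real.exp (n * τ)) volume :=
    (by fun_prop : Continuous fun τ : ℝ => Real.exp (n * τ)).aestronglyMeasurable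
  exact h5.mul ((wf_aesm hn hf.1 hY).pow 2)

include hn in
lemma G0_sq (hf : MemLp f 2 volume) (hY : Continuous Y) :
    Integrable (fun τ => Real.exp (2 * τ) * G0 n f Y τ ^ 2) volume := by
  refine (wf_sq hn hf hY).congr (Eventually.of_forall fun τ => ?_)
  simp only
  unfold G0
  have h1 : Real.exp (n * τ) = Real.exp (2 * τ) * Real.exp (((n : ℝ) - 2) / 2 * τ) ^ 2 := by
    rw [← Real.exp_nat_mul, ← Real.exp_add]
    congr 1
    push_cast
    ring
  rw [h1]
  ring

include hn in
lemma G0_aesm (hf : AEStronglyMeasurable f volume) (hY : Continuous Y) :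
    AEStronglyMeasurable (G0 n f Y) volume := by
  have h5 : AEStronglyMeasurable (fun τ : ℝ => Real.exp (((n : ℝ) - 2) / 2 * τ)) volume :=
    (by fun_prop : Continuous fun τ : ℝ => Real.exp (((n : ℝ) - 2) / 2 * τ)).aestronglyMeasurable
  exact h5.mul (wf_aesm hn hf hY)

include hn in
lemma G0_li (hf : MemLp f 2 volume) (hY : Continuous Y) :
    LocallyIntegrable (G0 n f Y) volume := by
  have h1 : LocallyIntegrable (fun τ : ℝ => Real.exp (-2 * τ)) volume :=
    (by fun_prop : Continuous fun τ : ℝ => Real.exp (-2 * τ)).locallyIntegrable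
  have h2 : LocallyIntegrable (fun τ => Real.exp (-2 * τ) + Real.exp (2 * τ) * G0 n f Y τ ^ 2)
      volume := h1.add (G0_sq hn hf hY).locallyIntegrable
  refine h2.mono (G0_aesm hn hf.1 hY) (Eventually.of_forall fun τ => ?_)
  rw [Real.norm_eq_abs, Real.norm_of_nonneg (by positivity)]
  have e1 : Real.exp (-2 * τ) * Real.exp (2 * τ) = 1 := by
    rw [← Real.exp_add]
    simp
  have p1 := Real.exp_pos (-2 * τ)
  have p2 := Real.exp_pos (2 * τ)
  have h3 : |G0 n f Y τ| ^ 2 = G0 n f Y τ ^ 2 := sq_abs _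
  set x := |G0 n f Y τ| with hx
  have hx0 : 0 ≤ x := abs_nonneg _
  rw [← h3]
  have h4 : x ^ 2 ≤ (Real.exp (-2 * τ) + Real.exp (2 * τ) * x ^ 2) ^ 2 := by
    have h5 : (Real.exp (-2 * τ) + Real.exp (2 * τ) * x ^ 2) ^ 2 =
        Real.exp (-2 * τ) ^ 2 + 2 * (Real.exp (-2 * τ) * Real.exp (2 * τ)) * x ^ 2 +
        (Real.exp (2 * τ) * x ^ 2) ^ 2 := by ring
    rw [h5, e1]
    nlinarith [sq_nonneg (Real.exp (-2 * τ)), sq_nonneg (Real.exp (2 * τ) * x ^ 2), sq_nonneg x]
  exact (sq_le_sq₀ hx0 (by positivity)).1 h4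

lemma F_integrable (hf : LocallyIntegrable f volume) (hY : Continuous Y) {κ : ℝ → ℝ}
    (hκ : Continuous κ) (hκc : HasCompactSupport κ) :
    Integrable (fun x => f x * (κ (Real.log ‖x‖) * Y x)) volume := by
  obtain ⟨R, hR⟩ : ∃ R, ∀ τ, R < τ → κ τ = 0 := by
    obtain ⟨R, hR⟩ := hκc.isCompact.bddAbove
    refine ⟨R, fun τ hτ => ?_⟩
    by_contra hne
    exact absurd (hR (subset_tsupport κ hne)) (not_le.2 hτ)
  obtain ⟨M, hM⟩ := hκc.exists_bound_of_continuous hκ
  obtain ⟨C, hC⟩ := (isCompact_closedBall (0 : E n) (Real.exp R)).exists_bound_of_continuousOn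
    hY.continuousOn
  have hi : IntegrableOn f (closedBall (0 : E n) (Real.exp R)) volume :=
    hf.integrableOn_isCompact (isCompact_closedBall _ _)
  have hi2 : Integrable (indicator (closedBall (0 : E n) (Real.exp R))
      (fun x => (M * C) * |f x|)) volume := by
    rw [integrable_indicator_iff measurableSet_closedBall]
    exact hi.abs.const_mul _
  have hM0 : 0 ≤ M := (norm_nonneg _).trans (hM 0)
  have hC0 : 0 ≤ C := (norm_nonneg _).trans (hC 0 (by simp [(Real.exp_pos R).le]))
  refine hi2.mono' ?_ (Eventually.of_forall fun x => ?_)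
  · refine hf.aestronglyMeasurable.mul ?_
    have h1 : Measurable fun x : E n => κ (Real.log ‖x‖) :=
      hκ.measurable.comp (Real.measurable_log.comp measurable_norm)
    exact (h1.mul hY.measurable).aestronglyMeasurable
  · by_cases hx : x ∈ closedBall (0 : E n) (Real.exp R)
    · rw [indicator_of_mem hx, norm_mul, norm_mul]
      have k1 := hM (Real.log ‖x‖)
      have k2 := hC x hx
      have k3 : ‖κ (Real.log ‖x‖)‖ * ‖Y x‖ ≤ M * C :=
        mul_le_mul k1 k2 (norm_nonneg _) hM0
      rw [mul_comm (M * C), ← Real.norm_eq_abs]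
      exact mul_le_mul_of_nonneg_left k3 (norm_nonneg _)
    · rw [indicator_of_notMem hx]
      have hx2 : Real.exp R < ‖x‖ := by
        rw [mem_closedBall, dist_zero_right, not_le] at hx
        exact hx
      have h1 : R < Real.log ‖x‖ := by
        rw [← Real.log_exp R]
        exact Real.log_lt_log (Real.exp_pos _) hx2
      rw [hR _ h1]
      simp

include hn in
lemma polar_formula (hf : MemLp f 2 volume) (hY : IsHarm l Y) {κ : ℝ → ℝ}
    (hκ : Continuous κ) (hκc : HasCompactSupport κ) :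
    ∫ x, f x * (κ (Real.log ‖x‖) * Y x) =
      ∫ τ, G0 n f Y τ * Real.exp (((l : ℝ) + (n : ℝ) / 2 + 1) * τ) * κ τ := by
  rw [integral_pol hn (F_integrable (hf.locallyIntegrable (by norm_num)) hY.smooth.continuous
    hκ hκc)]
  refine integral_congr_ae (Eventually.of_forall fun τ => ?_)
  simp only
  have h1 : ∀ ω : sphere (0 : E n) 1, f (pol n (ω, τ)) * (κ (Real.log ‖pol n (ω, τ)‖) *
      Y (pol n (ω, τ))) = (κ τ * Real.exp (l * τ)) * (f (pol n (ω, τ)) * Y (ω : E n)) := by
    intro ω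
    have h2 : Y (pol n (ω, τ)) = Real.exp τ ^ l * Y (ω : E n) :=
      hY.homog _ (Real.exp_pos τ) _
    rw [norm_pol, Real.log_exp, h2, ← Real.exp_nat_mul]
    ring
  simp only [h1]
  rw [integral_const_mul]
  unfold G0 wf
  have h3 : Real.exp (n * τ) * Real.exp (l * τ) = Real.exp (((n : ℝ) - 2) / 2 * τ) *
      Real.exp (((l : ℝ) + (n : ℝ) / 2 + 1) * τ) := by
    rw [← Real.exp_add, ← Real.exp_add]
    congr 1
    ring
  linear_combination (κ τ * ∫ ω, f (pol n (ω, τ)) * Y (ω : E n) ∂(sig n)) * h3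

end reduction

theorem stmtB : StmtB := by
  intro n hn v hv lam f hf hweak l Y hY
  have hYc : Continuous Y := hY.smooth.continuous
  set μ : ℝ := (l : ℝ) + ((n : ℝ) - 2) / 2 with hμ
  have hli := G0_li hn hf hYc
  have hpot : Continuous fun τ : ℝ => μ ^ 2 + Real.exp (2 * τ) * (v (Real.exp τ) - lam) := by
    fun_prop
  have hne : ∀ᵐ x : E n, x ≠ 0 := by
    have : Nontrivial (E n) := by
      have : Nonempty (Fin n) := ⟨⟨0, hn⟩⟩
      infer_instance
    have h1 : (volume : Measure (E n)) {0} = 0 := measure_singleton 0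
    exact compl_mem_ae_iff.2 h1
  have hw : ∀ κ, NLSLib.Test κ → ∫ τ, G0 n f Y τ * deriv (deriv κ) τ =
      ∫ τ, ((μ ^ 2 + Real.exp (2 * τ) * (v (Real.exp τ) - lam)) * G0 n f Y τ) * κ τ := by
    intro κ hκ
    obtain ⟨φ, hφ, hφ1, hφ2⟩ := exists_test hY hκ hμ
    have h1 := hweak φ hφ
    set K1 : ℝ → ℝ := fun τ => Real.exp (-(μ + 2) * τ) *
      (-(deriv (deriv κ) τ - μ ^ 2 * κ τ) + Real.exp (2 * τ) * v (Real.exp τ) * κ τ) with hK1
    set K2 : ℝ → ℝ := fun τ => Real.exp (-(μ + 2) * τ) * (Real.exp (2 * τ) * κ τ) with hK2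
    have cκ := hκ.continuous
    have cκ2 := hκ.deriv.deriv.continuous
    have hK1c : Continuous K1 := by fun_prop
    have hK2c : Continuous K2 := by fun_prop
    obtain ⟨R, hR, hz⟩ := hκ.bound
    obtain ⟨R2, hR2, hz2⟩ := hκ.deriv.deriv.bound
    have hK1s : HasCompactSupport K1 := by
      apply HasCompactSupport.intro (isCompact_closedBall (0 : ℝ) (max R R2))
      intro x hx
      rw [mem_closedBall, dist_zero_right, not_le, Real.norm_eq_abs, max_lt_iff] at hx
      rw [hK1]
      simp only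
      rw [hz x hx.1.le, hz2 x hx.2.le]
      ring
    have hK2s : HasCompactSupport K2 := by
      apply HasCompactSupport.intro (isCompact_closedBall (0 : ℝ) R)
      intro x hx
      rw [mem_closedBall, dist_zero_right, not_le, Real.norm_eq_abs] at hx
      rw [hK2]
      simp only
      rw [hz x hx.le]
      ring
    have e1 : ∫ x, f x * (-(lap φ x) + v ‖x‖ * φ x) =
        ∫ x, f x * (K1 (Real.log ‖x‖) * Y x) := by
      refine integral_congr_ae ?_
      filter_upwards [hne] with x hx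
      have hx0 : 0 < ‖x‖ := norm_pos_iff.2 hx
      rw [hφ1 x hx, hφ2 x hx, hK1]
      simp only
      have k1 : Real.exp (Real.log ‖x‖) = ‖x‖ := Real.exp_log hx0
      rw [k1]
      have k2 : Real.exp (-μ * Real.log ‖x‖) = Real.exp (-(μ + 2) * Real.log ‖x‖) *
          Real.exp (2 * Real.log ‖x‖) := by
        rw [← Real.exp_add]
        congr 1
        ring
      rw [k2]
      ring
    have e2 : ∫ x, f x * φ x = ∫ x, f x * (K2 (Real.log ‖x‖) * Y x) := by
      refine integral_congr_ae ?_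
      filter_upwards [hne] with x hx
      rw [hφ1 x hx, hK2]
      simp only
      have k2 : Real.exp (-μ * Real.log ‖x‖) = Real.exp (-(μ + 2) * Real.log ‖x‖) *
          Real.exp (2 * Real.log ‖x‖) := by
        rw [← Real.exp_add]
        congr 1
        ring
      rw [k2]
      ring
    rw [e1, e2, polar_formula hn hf hY hK1c hK1s, polar_formula hn hf hY hK2c hK2s] at h1
    have e0 : ∀ τ : ℝ, Real.exp (((l : ℝ) + (n : ℝ) / 2 + 1) * τ) *
        Real.exp (-(μ + 2) * τ) = 1 := by
      intro τ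
      rw [← Real.exp_add, Real.exp_eq_one_iff, hμ]
      ring
    have ig : ∀ {ψ : ℝ → ℝ}, Continuous ψ → HasCompactSupport ψ →
        Integrable (fun τ => G0 n f Y τ * ψ τ) volume := by
      intro ψ h1 h2
      have := hli.integrable_smul_right_of_hasCompactSupport h1 h2
      simpa [smul_eq_mul] using this
    have i1 : Integrable (fun τ => G0 n f Y τ *
        ((μ ^ 2 + Real.exp (2 * τ) * v (Real.exp τ)) * κ τ)) volume :=
      ig (ψ := fun τ => (μ ^ 2 + Real.exp (2 * τ) * v (Real.exp τ)) * κ τ) (by fun_prop)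
        (hκ.2.mul_left)
    have i2 : Integrable (fun τ => G0 n f Y τ * ((Real.exp (2 * τ) * lam) * κ τ)) volume :=
      ig (ψ := fun τ => (Real.exp (2 * τ) * lam) * κ τ) (by fun_prop) (hκ.2.mul_left)
    have i3 : Integrable (fun τ => -(G0 n f Y τ * deriv (deriv κ) τ)) volume :=
      (ig cκ2 hκ.deriv.deriv.2).neg
    have e3 : ∫ τ, G0 n f Y τ * Real.exp (((l : ℝ) + (n : ℝ) / 2 + 1) * τ) * K1 τ =
        -(∫ τ, G0 n f Y τ * deriv (deriv κ) τ) +
        ∫ τ, G0 n f Y τ * ((μ ^ 2 + Real.exp (2 * τ) * v (Real.exp τ)) * κ τ) := by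
      rw [← integral_neg, ← integral_add i3 i1]
      refine integral_congr_ae (Eventually.of_forall fun τ => ?_)
      simp only
      rw [hK1]
      simp only
      linear_combination (G0 n f Y τ * (-(deriv (deriv κ) τ - μ ^ 2 * κ τ) +
        Real.exp (2 * τ) * v (Real.exp τ) * κ τ)) * e0 τ
    have e4 : lam * ∫ τ, G0 n f Y τ * Real.exp (((l : ℝ) + (n : ℝ) / 2 + 1) * τ) * K2 τ =
        ∫ τ, G0 n f Y τ * ((Real.exp (2 * τ) * lam) * κ τ) := by
      rw [← integral_const_mul]
      refine integral_congr_ae (Eventually.of_forall fun τ => ?_)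
      simp only
      rw [hK2]
      simp only
      linear_combination (lam * G0 n f Y τ * Real.exp (2 * τ) * κ τ) * e0 τ
    rw [e3, e4] at h1
    have e5 : ∫ τ, ((μ ^ 2 + Real.exp (2 * τ) * (v (Real.exp τ) - lam)) * G0 n f Y τ) * κ τ =
        (∫ τ, G0 n f Y τ * ((μ ^ 2 + Real.exp (2 * τ) * v (Real.exp τ)) * κ τ)) -
        ∫ τ, G0 n f Y τ * ((Real.exp (2 * τ) * lam) * κ τ) := by
      rw [← integral_sub i1 i2]
      refine integral_congr_ae (Eventually.of_forall fun τ => ?_)
      simp only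
      ring
    rw [e5]
    linarith
  obtain ⟨y, y', hy, hy', hGy⟩ := weak_classical' hpot hli hw
  refine ⟨y, y', hy, hy', ?_, ?_⟩
  · refine (G0_sq hn hf hYc).congr ?_
    filter_upwards [hGy] with τ hτ
    rw [hτ]
  · intro κ hκ hκc
    rw [polar_formula hn hf hY hκ hκc]
    refine integral_congr_ae ?_
    filter_upwards [hGy] with τ hτ
    rw [hτ]

end

end NLSn
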