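import Pool.Agent.Lib52.NLSn.Defs

/-!
# Logarithmic polar coordinates
-/

set_option autoImplicit false

namespace NLSn

open MeasureTheory Set Filter Topology Metric

noncomputable section

/-- `e^τ` as an element of `(0,∞)` -/
def expI (τ : ℝ) : Ioi (0 : ℝ) := Real.expOrderIso τ

lemma expI_val (τ : ℝ) : ((expI τ : Ioi (0 : ℝ)) : ℝ) = Real.exp τ := rfl

lemma expI_emb : MeasurableEmbedding expI :=
  Real.expOrderIso.toHomeomorph.measurableEmbedding

/-- the measure `e^{nτ} dτ` -/
def mu1 (n : ℕ) : Measure ℝ :=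
  volume.withDensity (fun τ => ENNReal.ofReal (Real.exp (n * τ)))

lemma mp_expI {n : ℕ} (hn : 1 ≤ n) :
    MeasurePreserving expI (mu1 n) (Measure.volumeIoiPow (n - 1)) := by
  refine ⟨expI_emb.measurable, ?_⟩
  ext s hs
  rw [expI_emb.map_apply, mu1, withDensity_apply _ (expI_emb.measurable hs),
    Measure.volumeIoiPow, withDensity_apply _ hs,
    setLIntegral_subtype measurableSet_Ioi _ fun a : ℝ => ENNReal.ofReal (a ^ (n - 1))]
  have himg : (Subtype.val '' s : Set ℝ) = Real.exp '' (expI ⁻¹' s) := by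
    ext r
    constructor
    · rintro ⟨y, hy, rfl⟩
      obtain ⟨τ, rfl⟩ := Real.expOrderIso.surjective y
      exact ⟨τ, hy, rfl⟩
    · rintro ⟨τ, hτ, rfl⟩
      exact ⟨expI τ, hτ, rfl⟩
  rw [himg, lintegral_image_eq_lintegral_abs_deriv_mul (expI_emb.measurable hs)
    (fun x _ => (Real.hasDerivAt_exp x).hasDerivWithinAt) Real.exp_injective.injOn]
  refine lintegral_congr fun τ => ?_
  rw [← ENNReal.ofReal_mul (abs_nonneg _), abs_of_pos (Real.exp_pos τ), ← Real.exp_nat_mul,
    ← Real.exp_add]
  congr 2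
  rw [Nat.cast_sub hn]
  push_cast
  ring

/-- the surface measure of the unit sphere -/
def sig (n : ℕ) : Measure (sphere (0 : E n) 1) := (volume : Measure (E n)).toSphere

instance (n : ℕ) : IsFiniteMeasure (sig n) := by unfold sig; infer_instance

instance (n : ℕ) : SFinite (mu1 n) := by unfold mu1; infer_instance

/-- logarithmic polar coordinates -/
def pol (n : ℕ) (p : sphere (0 : E n) 1 × ℝ) : E n := Real.exp p.2 • (p.1 : E n)

lemma pol_eq (n : ℕ) : pol n = Subtype.val ∘ (homeomorphUnitSphereProd (E n)).symm ∘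
    Prod.map id expI := by
  funext p
  rfl

lemma pol_emb (n : ℕ) : MeasurableEmbedding (pol n) := by
  rw [pol_eq]
  exact (MeasurableEmbedding.subtype_coe (measurableSet_singleton (0 : E n)).compl).comp
    ((Homeomorph.measurableEmbedding _).comp (MeasurableEmbedding.id.prodMap expI_emb))

lemma mp_pol {n : ℕ} (hn : 1 ≤ n) :
    MeasurePreserving (pol n) ((sig n).prod (mu1 n)) (volume : Measure (E n)) := by
  have : Nontrivial (E n) := by
    have : Nonempty (Fin n) := ⟨⟨0, hn⟩⟩
    infer_instance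
  have hfin : Module.finrank ℝ (E n) = n := by simp
  have h1 : MeasurePreserving (Prod.map (id : sphere (0 : E n) 1 → _) expI)
      ((sig n).prod (mu1 n)) ((sig n).prod (Measure.volumeIoiPow (n - 1))) :=
    (MeasurePreserving.id _).prod (mp_expI hn)
  have h2 : MeasurePreserving (homeomorphUnitSphereProd (E n)).symm
      ((sig n).prod (Measure.volumeIoiPow (n - 1)))
      ((volume : Measure (E n)).comap (Subtype.val : ({0}ᶜ : Set (E n)) → E n)) := by
    have h3 := (volume : Measure (E n)).measurePreserving_homeomorphUnitSphereProd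
    rw [hfin] at h3
    exact MeasurePreserving.symm (homeomorphUnitSphereProd (E n)).toMeasurableEquiv h3
  have h3 : MeasurePreserving (Subtype.val : ({0}ᶜ : Set (E n)) → E n)
      ((volume : Measure (E n)).comap (Subtype.val : ({0}ᶜ : Set (E n)) → E n))
      (volume : Measure (E n)) := by
    refine ⟨measurable_subtype_coe, ?_⟩
    rw [map_comap_subtype_coe (measurableSet_singleton (0 : E n)).compl,
      restrict_compl_singleton]
  rw [pol_eq]
  exact h3.comp (h2.comp h1)

lemma norm_pol {n : ℕ} (p : sphere (0 : E n) 1 × ℝ) : ‖pol n p‖ = Real.exp p.2 := by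
  unfold pol
  rw [norm_smul, norm_eq_of_mem_sphere, mul_one, Real.norm_eq_abs, abs_of_pos (Real.exp_pos _)]

lemma integral_pol {n : ℕ} (hn : 1 ≤ n) {F : E n → ℝ} (hF : Integrable F) :
    ∫ x, F x = ∫ τ, Real.exp (n * τ) * ∫ ω, F (pol n (ω, τ)) ∂(sig n) := by
  rw [← (mp_pol hn).integral_comp (pol_emb n)]
  have h1 : Integrable (F ∘ pol n) ((sig n).prod (mu1 n)) :=
    ((mp_pol hn).integrable_comp_emb (pol_emb n)).2 hF
  have h2 := integral_prod_symm (F ∘ pol n) h1
  simp only [Function.comp_apply] at h2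
  rw [h2, mu1, integral_withDensity_eq_integral_toReal_smul]
  · refine integral_congr_ae (Eventually.of_forall fun τ => ?_)
    simp only [smul_eq_mul]
    rw [ENNReal.toReal_ofReal (Real.exp_pos _).le]
  · fun_prop
  · exact Eventually.of_forall fun _ => ENNReal.ofReal_lt_top

lemma mu1_ae {n : ℕ} {p : ℝ → Prop} (h : ∀ᵐ τ ∂(mu1 n), p τ) : ∀ᵐ τ, p τ := by
  unfold mu1 at h
  rw [ae_withDensity_iff (by fun_prop)] at h
  filter_upwards [h] with τ hτ
  apply hτ
  rw [Ne, ENNReal.ofReal_eq_zero, not_le]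
  exact Real.exp_pos _

lemma integrable_pol {n : ℕ} (hn : 1 ≤ n) {F : E n → ℝ} (hF : Integrable F) :
    (∀ᵐ τ, Integrable (fun ω => F (pol n (ω, τ))) (sig n)) ∧
    Integrable (fun τ => Real.exp (n * τ) * ∫ ω, F (pol n (ω, τ)) ∂(sig n)) := by
  have h1 : Integrable (F ∘ pol n) ((sig n).prod (mu1 n)) :=
    ((mp_pol hn).integrable_comp_emb (pol_emb n)).2 hF
  constructor
  · exact mu1_ae h1.prod_left_ae
  · have h2 := h1.integral_prod_right
    unfold mu1 at h2
    rw [integrable_withDensity_iff_integrable_smul' (by fun_prop)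
      (Eventually.of_forall fun _ => ENNReal.ofReal_lt_top)] at h2
    refine h2.congr (Eventually.of_forall fun τ => ?_)
    simp only [Function.comp_apply, smul_eq_mul]
    rw [ENNReal.toReal_ofReal (Real.exp_pos _).le]

end

end NLSn
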